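import Mathlib
import Pool.Agent.SCT.CountA
import Pool.Agent.SHC.Semi

/-!
# Sums over a finite field and the polynomial `X³ - 3X`

`L` a finite field of characteristic different from 2 and 3 which contains a square root of `-3`.
`cheb`: `2 ∑_X Φ(X³ - 3X) = ∑_{z ≠ 0} Φ(z³ + z⁻³) + 2 ∑_X Φ(X) - ∑_{z ≠ 0} Φ(z + z⁻¹)`.
Proof: `z + z⁻¹ = X` has `1 + η(X² - 4)` solutions, and `X ↦ X³ - 3X` is a bijection of the set of
the `X` with `η(X² - 4) ≠ 1`, which preserves `η(X² - 4)`.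
-/

set_option autoImplicit false

namespace SC4

open Finset SCT

variable {L : Type} [Field L] [Fintype L] [DecidableEq L]

/-- sums over the units -/
lemma sum_un (f : L → ℤ) : ∑ x, f x = f 0 + ∑ u : Lˣ, f u := by
  rw [Fintype.sum_eq_add_sum_subtype_ne f 0]
  congr 1
  exact (Fintype.sum_equiv unitsEquivNeZero (fun u : Lˣ => f u) (fun x => f x) fun u => rfl).symm

lemma sum_sq_un (h2 : (2 : L) ≠ 0) (g : L → ℤ) :
    ∑ z : Lˣ, g ((z : L) ^ 2) = ∑ u : Lˣ, (1 + quadraticChar L (u : L)) * g u := by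
  have h := sum_fiber h2 g
  rw [sum_un (fun y => g (y ^ 2)), sum_un (fun t => (1 + quadraticChar L t) * g t)] at h
  simp only [zero_pow two_ne_zero, eta_zero, add_zero, one_mul] at h
  linarith

/-- `∑ η(x) H(x)` -/
lemma sum_eta_mul (h2 : (2 : L) ≠ 0) (H : L → ℤ) :
    ∑ x : L, quadraticChar L x * H x = ∑ y : L, H (y ^ 2) - ∑ x : L, H x := by
  rw [sum_fiber h2 H, ← Finset.sum_sub_distrib]
  refine Finset.sum_congr rfl fun x _ => ?_
  ring

lemma sum_eta_mul_un (h2 : (2 : L) ≠ 0) (H : L → ℤ) :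
    ∑ x : Lˣ, quadraticChar L (x : L) * H x = ∑ y : Lˣ, H ((y : L) ^ 2) - ∑ x : Lˣ, H x := by
  rw [sum_sq_un h2 H, ← Finset.sum_sub_distrib]
  refine Finset.sum_congr rfl fun x _ => ?_
  ring

omit [Fintype L] [DecidableEq L] in
lemma four_ne (h2 : (2 : L) ≠ 0) : (4 : L) ≠ 0 := by
  have : (4 : L) = 2 * 2 := by norm_num
  rw [this]
  exact mul_ne_zero h2 h2

/-- `∑ η(v² + b v + d)` -/
lemma sum_quadr (h2 : (2 : L) ≠ 0) (b d : L) :
    ∑ v : L, quadraticChar L (v ^ 2 + b * v + d) =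
      (if b ^ 2 - 4 * d = 0 then (Fintype.card L : ℤ) else 0) - 1 := by
  have h1 : ∀ v : L, quadraticChar L (v ^ 2 + b * v + d) =
      (fun y : L => quadraticChar L (-(b ^ 2 - 4 * d) + 1 * y ^ 2)) (2 * v + b) := by
    intro v
    rw [← eta_sq h2 (b := v ^ 2 + b * v + d)]
    show quadraticChar L _ = quadraticChar L _
    congr 1
    ring
  rw [Finset.sum_congr rfl fun v _ => h1 v,
    sum_lin h2 b (fun y : L => quadraticChar L (-(b ^ 2 - 4 * d) + 1 * y ^ 2)),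
    sum_quad h2 one_ne_zero]
  simp only [map_one, mul_one, neg_eq_zero]

lemma sum_inv_add (h2 : (2 : L) ≠ 0) (Φ : L → ℤ) :
    ∑ z : Lˣ, Φ ((z : L) + (z : L)⁻¹) = ∑ X : L, (1 + quadraticChar L (X ^ 2 - 4)) * Φ X := by
  have h4 := four_ne h2
  have h1 : ∀ z : Lˣ, Φ ((z : L) + (z : L)⁻¹) =
      ∑ X : L, (if (2 * (z : L) + -X) ^ 2 = X ^ 2 - 4 then (1 : ℤ) else 0) * Φ X := by
    intro z
    have hz : (z : L) ≠ 0 := z.ne_zero
    rw [Finset.sum_eq_single ((z : L) + (z : L)⁻¹)]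
    · rw [if_pos, one_mul]
      field_simp
      ring
    · intro X _ hX
      rw [if_neg, zero_mul]
      intro h
      apply hX
      have h5 : 4 * (z * X) = 4 * ((z : L) ^ 2 + 1) := by linear_combination -h
      have h6 := mul_left_cancel₀ h4 h5
      field_simp
      linear_combination h6
    · intro h
      exact absurd (Finset.mem_univ _) h
  have h0 : (∑ X : L, (if (2 * (0 : L) + -X) ^ 2 = X ^ 2 - 4 then (1 : ℤ) else 0) * Φ X) = 0 := by
    refine Finset.sum_eq_zero fun X _ => ?_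
    rw [if_neg, zero_mul]
    intro h
    apply h4
    linear_combination h
  have h3 := sum_un (fun z : L =>
    ∑ X : L, (if (2 * z + -X) ^ 2 = X ^ 2 - 4 then (1 : ℤ) else 0) * Φ X)
  simp only [h0, zero_add] at h3
  rw [Finset.sum_congr rfl fun z _ => h1 z, ← h3, Finset.sum_comm]
  refine Finset.sum_congr rfl fun X _ => ?_
  rw [← Finset.sum_mul]
  congr 1
  rw [sum_lin h2 (-X) (fun y => if y ^ 2 = X ^ 2 - 4 then (1 : ℤ) else 0), sum_sq h2]

/-- the key bijection -/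
lemma cheb_perm (h2 : (2 : L) ≠ 0) (h3 : (3 : L) ≠ 0) {ι : L} (hι : ι ^ 2 = -3) (Φ : L → ℤ) :
    ∑ X : L, (1 - quadraticChar L (X ^ 2 - 4)) * Φ (X ^ 3 - 3 * X) =
      ∑ X : L, (1 - quadraticChar L (X ^ 2 - 4)) * Φ X := by
  have h4 := four_ne h2
  have hι0 : ι ≠ 0 := by
    rintro rfl
    rw [zero_pow two_ne_zero] at hι
    apply h3
    linear_combination hι
  set S : Finset L := univ.filter fun X : L => quadraticChar L (X ^ 2 - 4) ≠ 1 with hS
  have hsplit : ∀ Ψ : L → ℤ, ∑ X : L, (1 - quadraticChar L (X ^ 2 - 4)) * Ψ X =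
      ∑ X ∈ S, (1 - quadraticChar L (X ^ 2 - 4)) * Ψ X := by
    intro Ψ
    rw [hS, Finset.sum_filter]
    refine Finset.sum_congr rfl fun X _ => ?_
    by_cases h : quadraticChar L (X ^ 2 - 4) = 1
    · rw [if_neg (not_not.2 h), h, sub_self, zero_mul]
    · rw [if_pos h]
  -- squares
  have hsq : ∀ X Y : L, X ∈ S → Y ^ 2 = ι ^ 2 * (X ^ 2 - 4) → X ^ 2 - 4 = 0 := by
    intro X Y hX hY
    by_contra h0
    rw [hS, Finset.mem_filter] at hX
    apply hX.2
    have h5 : quadraticChar L (ι ^ 2 * (X ^ 2 - 4)) = 1 := by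
      rw [← hY]
      apply quadraticChar_sq_one'
      rintro rfl
      rw [zero_pow two_ne_zero] at hY
      exact (mul_ne_zero (pow_ne_zero 2 hι0) h0) hY.symm
    rwa [eta_sq hι0] at h5
  have hval : ∀ X ∈ S, quadraticChar L ((X ^ 3 - 3 * X) ^ 2 - 4) = quadraticChar L (X ^ 2 - 4) := by
    intro X hX
    have e : (X ^ 3 - 3 * X) ^ 2 - 4 = (X ^ 2 - 1) ^ 2 * (X ^ 2 - 4) := by ring
    rw [e]
    apply eta_sq
    intro h
    have h5 : X ^ 2 - 4 = ι ^ 2 := by rw [hι]; linear_combination h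
    have h6 := hsq X (ι * ι) hX (by rw [h5]; ring)
    rw [h5] at h6
    exact (pow_ne_zero 2 hι0) h6
  have hmaps : ∀ X ∈ S, X ^ 3 - 3 * X ∈ S := by
    intro X hX
    have h5 := hval X hX
    rw [hS, Finset.mem_filter] at hX ⊢
    exact ⟨mem_univ _, by rw [h5]; exact hX.2⟩
  have hinj : Set.InjOn (fun X : L => X ^ 3 - 3 * X) S := by
    intro X hX Y hY hXY
    by_contra hne
    have hXY' : X ^ 3 - 3 * X = Y ^ 3 - 3 * Y := hXY
    have h5 : (X - Y) * (X ^ 2 + X * Y + Y ^ 2 - 3) = 0 := by linear_combination hXY'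
    have h6 := (mul_eq_zero.1 h5).resolve_left (sub_ne_zero.2 hne)
    have hX4 := hsq X (2 * Y + X) hX (by rw [hι]; linear_combination 4 * h6)
    have hY4 := hsq Y (2 * X + Y) hY (by rw [hι]; linear_combination 4 * h6)
    have h7 : (2 * Y + X) ^ 2 = 0 := by linear_combination 4 * h6 - 3 * hX4
    have h8 : 2 * Y + X = 0 := pow_eq_zero_iff two_ne_zero |>.1 h7
    have h9 : (3 : L) * 4 = 0 := by
      linear_combination (2 * Y - X) * h8 + hX4 - 4 * hY4
    exact (mul_ne_zero h3 h4) h9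
  have himg : S.image (fun X : L => X ^ 3 - 3 * X) = S := by
    apply Finset.eq_of_subset_of_card_le
    · intro Y hY
      rw [Finset.mem_image] at hY
      obtain ⟨X, hX, rfl⟩ := hY
      exact hmaps X hX
    · rw [Finset.card_image_of_injOn hinj]
  rw [hsplit, hsplit Φ]
  conv_rhs => rw [← himg]
  rw [Finset.sum_image hinj]
  refine Finset.sum_congr rfl fun X hX => ?_
  rw [hval X hX]

theorem cheb (h2 : (2 : L) ≠ 0) (h3 : (3 : L) ≠ 0) {ι : L} (hι : ι ^ 2 = -3) (Φ : L → ℤ) :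
    2 * ∑ X : L, Φ (X ^ 3 - 3 * X) = ∑ z : Lˣ, Φ ((z : L) ^ 3 + ((z : L) ^ 3)⁻¹) +
      2 * ∑ X : L, Φ X - ∑ z : Lˣ, Φ ((z : L) + (z : L)⁻¹) := by
  have e1 := sum_inv_add h2 Φ
  have e2 := sum_inv_add h2 (fun X => Φ (X ^ 3 - 3 * X))
  have e3 := cheb_perm h2 h3 hι Φ
  have e4 : ∀ z : Lˣ, Φ (((z : L) + (z : L)⁻¹) ^ 3 - 3 * ((z : L) + (z : L)⁻¹)) =
      Φ ((z : L) ^ 3 + ((z : L) ^ 3)⁻¹) := by
    intro z
    have hz : (z : L) ≠ 0 := z.ne_zero
    congr 1
    field_simp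
    ring
  simp only [e4] at e2
  simp only [add_mul, sub_mul, one_mul, Finset.sum_add_distrib, Finset.sum_sub_distrib] at e1 e2 e3
  linarith

end SC4
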