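import Mathlib
import Pool.Agent.SC4.Cheb

/-!
# The number of cube roots in a finite field with `3 ∣ q - 1`
-/

set_option autoImplicit false

namespace SC4

open Finset SCT

variable {L : Type} [Field L] [Fintype L] [DecidableEq L]

/-- the number of cube roots -/
def N3 (t : L) : ℤ := ∑ r : L, if r ^ 3 = t then (1 : ℤ) else 0

lemma sum_cube (f : L → ℤ) : ∑ σ : L, f (σ ^ 3) = ∑ τ : L, N3 τ * f τ := by
  have h : ∀ σ : L, f (σ ^ 3) = ∑ τ : L, (if σ ^ 3 = τ then (1 : ℤ) else 0) * f τ := by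
    intro σ
    rw [Finset.sum_eq_single (σ ^ 3)]
    · rw [if_pos rfl, one_mul]
    · intro τ _ hτ
      rw [if_neg (Ne.symm hτ), zero_mul]
    · intro h
      exact absurd (Finset.mem_univ _) h
  rw [Finset.sum_congr rfl fun σ _ => h σ, Finset.sum_comm]
  refine Finset.sum_congr rfl fun τ _ => ?_
  rw [← Finset.sum_mul]
  rfl

lemma N3_zero : N3 (0 : L) = 1 := by
  unfold N3
  rw [Finset.sum_eq_single (0 : L)]
  · rw [if_pos (zero_pow three_ne_zero)]
  · intro r _ hr
    rw [if_neg (pow_ne_zero 3 hr)]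
  · intro h
    exact absurd (Finset.mem_univ _) h

lemma sum_cube_un (f : L → ℤ) :
    ∑ z : Lˣ, f ((z : L) ^ 3) = ∑ v : Lˣ, N3 (v : L) * f v := by
  have h := sum_cube f
  rw [sum_un (fun σ => f (σ ^ 3)), sum_un (fun τ => N3 τ * f τ)] at h
  simp only [zero_pow three_ne_zero, N3_zero, one_mul] at h
  linarith

lemma sum_N3 : ∑ t : L, N3 t = (Fintype.card L : ℤ) := by
  have h := sum_cube (fun _ : L => (1 : ℤ))
  simp only [mul_one, Finset.sum_const, Finset.card_univ, nsmul_eq_mul] at h
  exact h.symm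

/-- linear change of variables -/
lemma sum_mul_left {a : L} (ha : a ≠ 0) (g : L → ℤ) : ∑ t : L, g (a * t) = ∑ t : L, g t := by
  have := sum_lin ha 0 g
  simpa only [add_zero] using this

/-- the solutions of `t σ³ = κ³` -/
lemma sum_K {t κ : L} (ht : t ≠ 0) (hκ : κ ≠ 0) (q : ℤ) :
    (∑ σ : L, if t * σ ^ 3 = κ ^ 3 then q else 0) = q * N3 t := by
  have e0 : (∑ σ : L, if t * σ ^ 3 = κ ^ 3 then q else 0) =
      q * ∑ σ : L, if t * σ ^ 3 = κ ^ 3 then (1 : ℤ) else 0 := by
    rw [Finset.mul_sum]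
    refine Finset.sum_congr rfl fun σ _ => ?_
    split_ifs <;> ring
  rw [e0]
  congr 1
  unfold N3
  refine Fintype.sum_bijective (fun σ : L => κ * σ⁻¹) ?_ _ _ fun σ => ?_
  · refine ⟨fun a b h => ?_, fun y => ⟨κ * y⁻¹, ?_⟩⟩
    · have h' : κ * a⁻¹ = κ * b⁻¹ := h
      exact inv_injective (mul_left_cancel₀ hκ h')
    · show κ * (κ * y⁻¹)⁻¹ = y
      rw [mul_inv, inv_inv, mul_inv_cancel_left₀ hκ]
  · refine if_congr ?_ rfl rfl
    show t * σ ^ 3 = κ ^ 3 ↔ (κ * σ⁻¹) ^ 3 = t
    by_cases hσ : σ = 0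
    · subst hσ
      rw [zero_pow three_ne_zero, mul_zero, inv_zero, mul_zero, zero_pow three_ne_zero]
      exact ⟨fun h => absurd h.symm (pow_ne_zero 3 hκ), fun h => absurd h.symm ht⟩
    · rw [mul_pow, inv_pow, ← div_eq_mul_inv, div_eq_iff (pow_ne_zero 3 hσ)]
      exact eq_comm

lemma exists_N (h2 : (2 : L) ≠ 0) (h3 : (3 : L) ≠ 0) {ι : L} (hι : ι ^ 2 = -3) :
    ∃ N : ℕ, 3 * N = Fintype.card Lˣ := by
  obtain ⟨ζ, hζ⟩ : ∃ ζ : L, ζ = (ι - 1) / 2 := ⟨_, rfl⟩
  have h1 : ζ ^ 2 + ζ + 1 = 0 := by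
    rw [hζ]
    field_simp
    linear_combination hι
  have hζ0 : ζ ≠ 0 := by
    intro h
    rw [h] at h1
    simp at h1
  have hζ1 : ζ ≠ 1 := by
    intro h
    rw [h] at h1
    apply h3
    linear_combination h1
  have hζ3 : ζ ^ 3 = 1 := by linear_combination (ζ - 1) * h1
  have h4 : orderOf (Units.mk0 ζ hζ0) = 3 := by
    apply orderOf_eq_prime
    · apply Units.ext
      rw [Units.val_pow_eq_pow_val, Units.val_mk0, hζ3, Units.val_one]
    · intro h
      apply hζ1
      have := congrArg Units.val h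
      rwa [Units.val_mk0, Units.val_one] at this
  have h5 := orderOf_dvd_card (x := Units.mk0 ζ hζ0)
  rw [h4] at h5
  obtain ⟨N, hN⟩ := h5
  exact ⟨N, hN.symm⟩

lemma N3_unit {N : ℕ} (hN : 3 * N = Fintype.card Lˣ) (v : Lˣ) :
    N3 (v : L) = if v ^ N = 1 then 3 else 0 := by
  have h := SHC.card_pow_eq hN v
  unfold N3
  rw [sum_un (fun r : L => if r ^ 3 = (v : L) then (1 : ℤ) else 0)]
  rw [if_neg (by rw [zero_pow three_ne_zero]; exact v.ne_zero.symm), zero_add]
  have h1 : ∀ u : Lˣ, (if (u : L) ^ 3 = (v : L) then (1 : ℤ) else 0) =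
      if u ^ 3 = v then (1 : ℤ) else 0 := by
    intro u
    refine if_congr ?_ rfl rfl
    rw [← Units.val_pow_eq_pow_val, Units.val_inj]
  rw [Finset.sum_congr rfl fun u _ => h1 u, Finset.sum_boole, h]
  split_ifs <;> simp

lemma N3_sq {N : ℕ} (hN : 3 * N = Fintype.card Lˣ) (v : Lˣ) :
    N3 (v : L) * N3 (v : L) = 3 * N3 (v : L) := by
  rw [N3_unit hN]
  split_ifs <;> norm_num

lemma N3_neg (t : L) : N3 (-t) = N3 t := by
  unfold N3
  refine Fintype.sum_bijective (fun σ : L => -σ) (neg_involutive.bijective) _ _ fun σ => ?_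
  refine if_congr ?_ rfl rfl
  constructor
  · intro h
    rw [Odd.neg_pow (by decide), h, neg_neg]
  · intro h
    rw [Odd.neg_pow (by decide)] at h
    rw [← h, neg_neg]

/-- the three classes modulo cubes -/
lemma three_classes (h2 : (2 : L) ≠ 0) (h3 : (3 : L) ≠ 0) {ι : L} (hι : ι ^ 2 = -3)
    {B : L} (A : L) (hB : B ≠ 0) (v : Lˣ) :
    N3 (v : L) * ∑ σ : L, quadraticChar L (A - B * v * σ ^ 3) =
      ∑ σ : L, quadraticChar L (A - B * σ ^ 3) + ∑ σ : L, quadraticChar L (A - B * v * σ ^ 3) +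
        ∑ σ : L, quadraticChar L (A - B * v ^ 2 * σ ^ 3) := by
  obtain ⟨N, hN⟩ := exists_N h2 h3 hι
  rw [N3_unit hN]
  by_cases hv : v ^ N = 1
  · rw [if_pos hv]
    obtain ⟨r, hr⟩ := (SHC.pow_eq_iff hN v).2 hv
    have hr' : (v : L) = (r : L) ^ 3 := by rw [← hr, Units.val_pow_eq_pow_val]
    have e1 : ∑ σ : L, quadraticChar L (A - B * v * σ ^ 3) =
        ∑ σ : L, quadraticChar L (A - B * σ ^ 3) := by
      rw [← sum_mul_left r.ne_zero (fun σ : L => quadraticChar L (A - B * σ ^ 3))]
      refine Finset.sum_congr rfl fun σ _ => ?_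
      show quadraticChar L _ = quadraticChar L _
      rw [hr', mul_pow, mul_assoc]
    have e2 : ∑ σ : L, quadraticChar L (A - B * v ^ 2 * σ ^ 3) =
        ∑ σ : L, quadraticChar L (A - B * σ ^ 3) := by
      rw [← sum_mul_left (pow_ne_zero 2 r.ne_zero) (fun σ : L => quadraticChar L (A - B * σ ^ 3))]
      refine Finset.sum_congr rfl fun σ _ => ?_
      show quadraticChar L _ = quadraticChar L _
      congr 1
      rw [hr']
      ring
    rw [e1, e2]
    ring
  · rw [if_neg hv, zero_mul]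
    -- the three counting functions
    have key : ∀ k : Lˣ, ∑ σ : L, quadraticChar L (A - B * k * σ ^ 3) =
        ∑ τ : L, (if τ = 0 then 1 else N3 (τ * (k : L)⁻¹)) * quadraticChar L (A - B * τ) := by
      intro k
      have hk := k.ne_zero
      have e1 : ∑ σ : L, quadraticChar L (A - B * k * σ ^ 3) =
          ∑ τ : L, N3 τ * quadraticChar L (A - B * (k * τ)) := by
        rw [← sum_cube (fun τ : L => quadraticChar L (A - B * (k * τ)))]
        refine Finset.sum_congr rfl fun σ _ => ?_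
        rw [mul_assoc]
      rw [e1, ← sum_mul_left hk (fun τ : L =>
        (if τ = 0 then 1 else N3 (τ * (k : L)⁻¹)) * quadraticChar L (A - B * τ))]
      refine Finset.sum_congr rfl fun τ _ => ?_
      congr 1
      show N3 τ = if (k : L) * τ = 0 then 1 else N3 (k * τ * (k : L)⁻¹)
      by_cases hτ : τ = 0
      · subst hτ
        rw [mul_zero, if_pos rfl, N3_zero]
      · rw [if_neg (mul_ne_zero hk hτ)]
        congr 1
        field_simp
    have k0 := key 1
    have k1 := key v
    have k2 := key (v ^ 2)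
    rw [Units.val_one, mul_one] at k0
    rw [Units.val_pow_eq_pow_val] at k2
    rw [k0, k1, k2, ← Finset.sum_add_distrib, ← Finset.sum_add_distrib]
    have hall : ∀ τ : L, (if τ = 0 then 1 else N3 (τ * (1 : L)⁻¹)) * quadraticChar L (A - B * τ) +
        (if τ = 0 then 1 else N3 (τ * (v : L)⁻¹)) * quadraticChar L (A - B * τ) +
        (if τ = 0 then 1 else N3 (τ * ((v : L) ^ 2)⁻¹)) * quadraticChar L (A - B * τ) =
        3 * quadraticChar L (A - B * τ) := by
      intro τ
      rw [← add_mul, ← add_mul]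
      congr 1
      by_cases hτ : τ = 0
      · simp only [hτ, if_true]
        norm_num
      · rw [if_neg hτ, if_neg hτ, if_neg hτ]
        obtain ⟨w, hw⟩ : ∃ w : Lˣ, (w : L) = τ := ⟨Units.mk0 τ hτ, rfl⟩
        have t0 : τ * (1 : L)⁻¹ = ((w : Lˣ) : L) := by rw [inv_one, mul_one, hw]
        have t1 : τ * (v : L)⁻¹ = ((w * v⁻¹ : Lˣ) : L) := by
          rw [Units.val_mul, hw, Units.val_inv_eq_inv_val]
        have t2 : τ * ((v : L) ^ 2)⁻¹ = ((w * (v ^ 2)⁻¹ : Lˣ) : L) := by
          rw [Units.val_mul, hw, Units.val_inv_eq_inv_val, Units.val_pow_eq_pow_val]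
        rw [t0, t1, t2, N3_unit hN, N3_unit hN, N3_unit hN, mul_pow, mul_pow, inv_pow, inv_pow,
          ← pow_mul, mul_comm 2 N, pow_mul]
        obtain ⟨ε, hε⟩ : ∃ ε : Lˣ, ε = v ^ N := ⟨_, rfl⟩
        obtain ⟨e, he⟩ : ∃ e : Lˣ, e = w ^ N := ⟨_, rfl⟩
        rw [← hε, ← he]
        rw [← hε] at hv
        have hε3 : ε ^ 3 = 1 := by rw [hε, ← pow_mul, mul_comm N 3, hN, pow_card_eq_one]
        have he3 : e ^ 3 = 1 := by rw [he, ← pow_mul, mul_comm N 3, hN, pow_card_eq_one]
        have hεL : (ε : L) ^ 3 = 1 := by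
          rw [← Units.val_pow_eq_pow_val, hε3, Units.val_one]
        have heL : (e : L) ^ 3 = 1 := by
          rw [← Units.val_pow_eq_pow_val, he3, Units.val_one]
        have hε1 : (ε : L) ≠ 1 := by
          intro h
          exact hv (Units.ext (by rw [h, Units.val_one]))
        have hrel : (ε : L) ^ 2 + ε + 1 = 0 := by
          have : ((ε : L) - 1) * ((ε : L) ^ 2 + ε + 1) = 0 := by linear_combination hεL
          exact (mul_eq_zero.1 this).resolve_left (sub_ne_zero.2 hε1)
        have hprod : ((e : L) - 1) * ((e : L) - ε) * ((e : L) - ε ^ 2) = 0 := by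
          linear_combination heL + (-(e : L) ^ 2 + e * ε - ε + 1) * hrel
        have hε2 : ε ^ 2 ≠ 1 := by
          intro h
          apply hv
          have : ε ^ 3 = ε ^ 2 * ε := pow_succ ε 2
          rw [hε3, h, one_mul] at this
          exact this.symm
        have hεε : ε ≠ ε ^ 2 := by
          intro h
          apply hv
          have h5 : ε * 1 = ε * ε := by rw [mul_one, ← sq]; exact h
          exact (mul_left_cancel h5).symm
        have i1 : (e * ε⁻¹ = 1) ↔ e = ε := mul_inv_eq_one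
        have i2 : (e * (ε ^ 2)⁻¹ = 1) ↔ e = ε ^ 2 := mul_inv_eq_one
        rw [if_congr i1 rfl rfl, if_congr i2 rfl rfl]
        rcases mul_eq_zero.1 hprod with h | h
        · rcases mul_eq_zero.1 h with h | h
          · have h5 : e = 1 := Units.ext (sub_eq_zero.1 h)
            rw [if_pos h5, if_neg, if_neg]
            · norm_num
            · rw [h5]
              exact fun h => hε2 h.symm
            · rw [h5]
              exact fun h => hv h.symm
          · have h5 : e = ε := Units.ext (sub_eq_zero.1 h)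
            rw [if_neg, if_pos h5, if_neg]
            · norm_num
            · rw [h5]
              exact hεε
            · rw [h5]
              exact hv
        · have h5 : e = ε ^ 2 := Units.ext (by
            rw [Units.val_pow_eq_pow_val]; exact sub_eq_zero.1 h)
          rw [if_neg, if_neg, if_pos h5]
          · norm_num
          · rw [h5]
            exact fun h => hεε h.symm
          · rw [h5]
            exact hε2
    rw [Finset.sum_congr rfl fun τ _ => hall τ, ← Finset.mul_sum]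
    have hz : ∑ τ : L, quadraticChar L (A - B * τ) = 0 := by
      have h5 := sum_lin (neg_ne_zero.2 hB) A (fun t => quadraticChar L t)
      rw [sum_eta h2] at h5
      rw [← h5]
      refine Finset.sum_congr rfl fun τ _ => ?_
      congr 1
      ring
    rw [hz, mul_zero]

end SC4
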