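import Mathlib
import Pool.Agent.SC4.Cube

/-!
# The main character sum

`L` a finite field with `q` elements which contains square roots of `3` and `-3`, `c = γ³ ≠ 0`,
`27 c + 1 = δ³ ≠ 0`, `t ≠ 0`.  Then
`∑_x ∑_σ η(x) η(x (1 - x)² + 4 c - 4 t σ³) = 2 q #{r : r³ = t} - 2 q - ∑_ν η(1 - 4 t ν³)`.
-/

set_option autoImplicit false

namespace SC4

open Finset SCT

variable {L : Type} [Field L] [Fintype L] [DecidableEq L]

/-- the inner sum -/
def Psi (c t : L) (Y : L) : ℤ := ∑ σ : L, quadraticChar L (Y + 4 * c - 4 * t * σ ^ 3)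

/-- the quadratic polynomial -/
def QQ (c v : L) : L := v ^ 2 + (2 + 108 * c) * v + 1

lemma sum_Psi (h2 : (2 : L) ≠ 0) {a : L} (ha : a ≠ 0) (b c t : L) :
    ∑ X : L, Psi c t (a * X + b) = 0 := by
  unfold Psi
  rw [Finset.sum_comm]
  refine Finset.sum_eq_zero fun σ _ => ?_
  have h := sum_lin ha (b + 4 * c - 4 * t * σ ^ 3) (fun y => quadraticChar L y)
  rw [sum_eta h2] at h
  rw [← h]
  refine Finset.sum_congr rfl fun X _ => ?_
  congr 1
  ring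

lemma n27 (h3 : (3 : L) ≠ 0) : (27 : L) ≠ 0 := by
  have : (27 : L) = 3 * 3 * 3 := by norm_num
  rw [this]
  exact mul_ne_zero (mul_ne_zero h3 h3) h3

lemma n108 (h2 : (2 : L) ≠ 0) (h3 : (3 : L) ≠ 0) : (108 : L) ≠ 0 := by
  have : (108 : L) = 2 * 2 * 27 := by norm_num
  rw [this]
  exact mul_ne_zero (mul_ne_zero h2 h2) (n27 h3)

/-- squares -/
lemma sum_Psi_sq (h2 : (2 : L) ≠ 0) (h3 : (3 : L) ≠ 0) {θ c t γ : L} (hθ : θ ^ 2 = 3)
    (hc : γ ^ 3 = c) (hγ : γ ≠ 0) (ht : t ≠ 0) :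
    ∑ Y : L, Psi c t (Y ^ 2 / 27) = (Fintype.card L : ℤ) * N3 t - Fintype.card L := by
  have h27 := n27 h3
  have h108 := n108 h2 h3
  have hθ0 : θ ≠ 0 := by
    rintro rfl
    rw [zero_pow two_ne_zero] at hθ
    exact h3 hθ.symm
  unfold Psi
  rw [Finset.sum_comm]
  have e : ∀ σ : L, ∑ Y : L, quadraticChar L (Y ^ 2 / 27 + 4 * c - 4 * t * σ ^ 3) =
      (if t * σ ^ 3 = γ ^ 3 then (Fintype.card L : ℤ) else 0) - 1 := by
    intro σ
    have e1 : ∀ Y : L, quadraticChar L (Y ^ 2 / 27 + 4 * c - 4 * t * σ ^ 3) =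
        quadraticChar L (108 * (c - t * σ ^ 3) + 1 * Y ^ 2) := by
      intro Y
      rw [← eta_sq (mul_ne_zero h3 hθ0) (b := Y ^ 2 / 27 + 4 * c - 4 * t * σ ^ 3)]
      congr 1
      have : (3 * θ) ^ 2 = 27 := by rw [mul_pow, hθ]; norm_num
      rw [this]
      field_simp
      ring
    rw [Finset.sum_congr rfl fun Y _ => e1 Y, sum_quad h2 one_ne_zero, map_one, mul_one]
    congr 1
    refine if_congr ?_ rfl rfl
    rw [mul_eq_zero, hc]
    constructor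
    · intro h
      exact (sub_eq_zero.1 (h.resolve_left h108)).symm
    · intro h
      right
      rw [h, sub_self]
  rw [Finset.sum_congr rfl fun σ _ => e σ, Finset.sum_sub_distrib, sum_K ht hγ,
    Finset.sum_const, Finset.card_univ, nsmul_eq_mul, mul_one]

/-- the sum over the quadratic polynomials -/
lemma sum_QQ (h2 : (2 : L) ≠ 0) (h3 : (3 : L) ≠ 0) {c t γ δ : L}
    (hc : γ ^ 3 = c) (hγ : γ ≠ 0) (hδ : δ ^ 3 = 27 * c + 1) (hδ0 : δ ≠ 0) (ht : t ≠ 0) :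
    ∑ v : Lˣ, ∑ σ : L, quadraticChar L (QQ c v - 108 * t * σ ^ 3) =
      (Fintype.card L : ℤ) * N3 t - Fintype.card L -
        ∑ σ : L, quadraticChar L (1 - 4 * t * σ ^ 3) := by
  have h4 := four_ne h2
  have h108 := n108 h2 h3
  have e0 : ∑ σ : L, quadraticChar L (1 - 4 * t * σ ^ 3) =
      ∑ σ : L, quadraticChar L (1 - 108 * t * σ ^ 3) := by
    rw [← sum_mul_left h3 (fun σ : L => quadraticChar L (1 - 4 * t * σ ^ 3))]
    refine Finset.sum_congr rfl fun σ _ => ?_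
    show quadraticChar L _ = quadraticChar L _
    congr 1
    ring
  rw [e0, Finset.sum_comm]
  have e : ∀ σ : L, ∑ v : Lˣ, quadraticChar L (QQ c v - 108 * t * σ ^ 3) =
      (if t * σ ^ 3 = (-(γ * δ)) ^ 3 then (Fintype.card L : ℤ) else 0) - 1 -
        quadraticChar L (1 - 108 * t * σ ^ 3) := by
    intro σ
    have e1 := sum_un (fun v : L => quadraticChar L (v ^ 2 + (2 + 108 * c) * v +
      (1 - 108 * t * σ ^ 3)))
    rw [sum_quadr h2] at e1
    have e2 : ∀ v : Lˣ, quadraticChar L (QQ c v - 108 * t * σ ^ 3) =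
        quadraticChar L ((v : L) ^ 2 + (2 + 108 * c) * v + (1 - 108 * t * σ ^ 3)) := by
      intro v
      congr 1
      unfold QQ
      ring
    rw [Finset.sum_congr rfl fun v _ => e2 v]
    have e3 : (if (2 + 108 * c) ^ 2 - 4 * (1 - 108 * t * σ ^ 3) = 0 then
        (Fintype.card L : ℤ) else 0) =
        (if t * σ ^ 3 = (-(γ * δ)) ^ 3 then (Fintype.card L : ℤ) else 0) := by
      refine if_congr ?_ rfl rfl
      have e4 : (-(γ * δ)) ^ 3 = -(c * (27 * c + 1)) := by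
        linear_combination -(δ ^ 3) * hc - c * hδ
      rw [e4]
      constructor
      · intro h
        have h5 : (4 * 108) * (t * σ ^ 3) = (4 * 108) * -(c * (27 * c + 1)) := by
          linear_combination h
        exact mul_left_cancel₀ (mul_ne_zero h4 h108) h5
      · intro h
        linear_combination (4 * 108) * h
    have e5 : (0 : L) ^ 2 + (2 + 108 * c) * 0 + (1 - 108 * t * σ ^ 3) = 1 - 108 * t * σ ^ 3 := by
      ring
    rw [e5, e3] at e1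
    linarith
  rw [Finset.sum_congr rfl fun σ _ => e σ, Finset.sum_sub_distrib, Finset.sum_sub_distrib,
    sum_K ht (neg_ne_zero.2 (mul_ne_zero hγ hδ0)), Finset.sum_const, Finset.card_univ,
    nsmul_eq_mul, mul_one]

/-- the inversion -/
lemma sum_QQ_inv (c B : L) :
    ∑ v : Lˣ, ∑ σ : L, quadraticChar L (QQ c v - B * (v : L) ^ 2 * σ ^ 3) =
      ∑ v : Lˣ, ∑ σ : L, quadraticChar L (QQ c v - B * σ ^ 3) := by
  refine Fintype.sum_equiv (Equiv.inv Lˣ) _ _ fun v => ?_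
  refine Finset.sum_congr rfl fun σ _ => ?_
  have hv : (v : L) ≠ 0 := v.ne_zero
  rw [Equiv.inv_apply, Units.val_inv_eq_inv_val, ← eta_sq hv (b := QQ c (v : L)⁻¹ - B * σ ^ 3)]
  congr 1
  unfold QQ
  field_simp
  ring

/-- the values on the units -/
lemma eta_Psi (h3 : (3 : L) ≠ 0) {θ : L} (hθ : θ ^ 2 = 3) (c t : L) (v : Lˣ) :
    quadraticChar L (v : L) * Psi c t (((v : L) + (v : L)⁻¹ + 2) / 27) =
      ∑ σ : L, quadraticChar L (QQ c v - 108 * t * v * σ ^ 3) := by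
  have h27 := n27 h3
  have hv : (v : L) ≠ 0 := v.ne_zero
  have hθ0 : θ ≠ 0 := by
    rintro rfl
    rw [zero_pow two_ne_zero] at hθ
    exact h3 hθ.symm
  unfold Psi
  rw [Finset.mul_sum]
  refine Finset.sum_congr rfl fun σ _ => ?_
  rw [← map_mul, ← eta_sq (mul_ne_zero h3 hθ0)
    (b := (v : L) * (((v : L) + (v : L)⁻¹ + 2) / 27 + 4 * c - 4 * t * σ ^ 3))]
  congr 1
  have : (3 * θ) ^ 2 = 27 := by rw [mul_pow, hθ]; norm_num
  rw [this]
  unfold QQ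
  field_simp
  ring

theorem sum_Z (h2 : (2 : L) ≠ 0) (h3 : (3 : L) ≠ 0) {ι θ c t γ δ : L} (hι : ι ^ 2 = -3)
    (hθ : θ ^ 2 = 3) (hc : γ ^ 3 = c) (hγ : γ ≠ 0) (hδ : δ ^ 3 = 27 * c + 1) (hδ0 : δ ≠ 0)
    (ht : t ≠ 0) :
    ∑ x : L, quadraticChar L x * Psi c t (x * (1 - x) ^ 2) =
      2 * (Fintype.card L : ℤ) * N3 t - 2 * Fintype.card L -
        ∑ σ : L, quadraticChar L (1 - 4 * t * σ ^ 3) := by
  have h27 := n27 h3
  have h108 := n108 h2 h3
  have hθ0 : θ ≠ 0 := by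
    rintro rfl
    rw [zero_pow two_ne_zero] at hθ
    exact h3 hθ.symm
  obtain ⟨Φ1, hΦ1⟩ : ∃ Φ : L → ℤ, Φ = fun Y => Psi c t (Y ^ 2 / 27) := ⟨_, rfl⟩
  obtain ⟨Φ2, hΦ2⟩ : ∃ Φ : L → ℤ, Φ = fun Y => Psi c t ((Y + 2) / 27) := ⟨_, rfl⟩
  have e1 := sum_eta_mul h2 (fun x : L => Psi c t (x * (1 - x) ^ 2))
  -- the substitutions
  have e2 : ∑ x : L, Psi c t (x * (1 - x) ^ 2) = ∑ X : L, Φ2 (X ^ 3 - 3 * X) := by
    rw [← sum_lin h3 (-2) (fun X : L => Φ2 (X ^ 3 - 3 * X))]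
    refine Finset.sum_congr rfl fun x _ => ?_
    rw [hΦ2]
    show Psi c t _ = Psi c t _
    congr 1
    field_simp
    ring
  have e3 : ∑ y : L, Psi c t (y ^ 2 * (1 - y ^ 2) ^ 2) = ∑ X : L, Φ1 (X ^ 3 - 3 * X) := by
    rw [← sum_mul_left hθ0 (fun X : L => Φ1 (X ^ 3 - 3 * X))]
    refine Finset.sum_congr rfl fun x _ => ?_
    rw [hΦ1]
    show Psi c t _ = Psi c t _
    congr 1
    rw [eq_div_iff h27]
    have : (θ * x) ^ 3 - 3 * (θ * x) = θ * (3 * (x ^ 3 - x)) := by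
      linear_combination θ * x ^ 3 * hθ
    rw [this, mul_pow, hθ]
    ring
  have c1 := cheb h2 h3 hι Φ1
  have c2 := cheb h2 h3 hι Φ2
  -- `Φ1` and `Φ2`
  have r0 : ∀ z : Lˣ, Φ1 ((z : L) + (z : L)⁻¹) = Φ2 ((z : L) ^ 2 + ((z : L) ^ 2)⁻¹) := by
    intro z
    have hz : (z : L) ≠ 0 := z.ne_zero
    rw [hΦ1, hΦ2]
    show Psi c t _ = Psi c t _
    congr 1
    field_simp
    ring
  obtain ⟨R, hR⟩ : ∃ R : L → ℤ, R = fun z => Φ2 (z + z⁻¹) := ⟨_, rfl⟩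
  have r1 : ∀ z : Lˣ, Φ1 ((z : L) + (z : L)⁻¹) = R ((z : L) ^ 2) := by
    intro z
    rw [r0, hR]
  have r2 : ∀ z : Lˣ, Φ1 ((z : L) ^ 3 + ((z : L) ^ 3)⁻¹) = R (((z : L) ^ 2) ^ 3) := by
    intro z
    have := r1 (z ^ 3)
    rw [Units.val_pow_eq_pow_val] at this
    rw [this]
    congr 1
    ring
  have r3 : ∀ z : Lˣ, Φ2 ((z : L) ^ 3 + ((z : L) ^ 3)⁻¹) = R ((z : L) ^ 3) := by
    intro z
    rw [hR]
  have r4 : ∀ z : Lˣ, Φ2 ((z : L) + (z : L)⁻¹) = R (z : L) := by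
    intro z
    rw [hR]
  simp only [r1, r2] at c1
  simp only [r3, r4] at c2
  have g1 := sum_eta_mul_un h2 (fun x : L => R (x ^ 3))
  have g2 := sum_eta_mul_un h2 R
  -- the values of `η(v) R(v)`
  have m1 : ∀ v : Lˣ, quadraticChar L (v : L) * R v =
      ∑ σ : L, quadraticChar L (QQ c v - 108 * t * v * σ ^ 3) := by
    intro v
    rw [hR, hΦ2]
    exact eta_Psi h3 hθ c t v
  have m3 : ∀ v : Lˣ, quadraticChar L (v : L) * R ((v : L) ^ 3) =
      ∑ σ : L, quadraticChar L (QQ c ((v : L) ^ 3) - 108 * t * (v : L) ^ 3 * σ ^ 3) := by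
    intro v
    have := m1 (v ^ 3)
    rw [Units.val_pow_eq_pow_val] at this
    rw [← this]
    congr 1
    rw [pow_succ (v : L) 2, eta_sq v.ne_zero]
  rw [Finset.sum_congr rfl fun v _ => m1 v] at g2
  rw [Finset.sum_congr rfl fun v _ => m3 v] at g1
  have k1 := sum_cube_un (fun v : L =>
    ∑ σ : L, quadraticChar L (QQ c v - 108 * t * v * σ ^ 3))
  have k2 : ∀ v : Lˣ, N3 (v : L) * ∑ σ : L, quadraticChar L (QQ c v - 108 * t * v * σ ^ 3) =
      ∑ σ : L, quadraticChar L (QQ c v - 108 * t * σ ^ 3) +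
      ∑ σ : L, quadraticChar L (QQ c v - 108 * t * v * σ ^ 3) +
        ∑ σ : L, quadraticChar L (QQ c v - 108 * t * v ^ 2 * σ ^ 3) := fun v =>
    three_classes h2 h3 hι (QQ c v) (mul_ne_zero h108 ht) v
  rw [Finset.sum_congr rfl fun v _ => k2 v, Finset.sum_add_distrib, Finset.sum_add_distrib,
    sum_QQ_inv c (108 * t), sum_QQ h2 h3 hc hγ hδ hδ0 ht] at k1
  -- the other sums
  have s1 : ∑ Y : L, Φ1 Y = (Fintype.card L : ℤ) * N3 t - Fintype.card L := by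
    rw [hΦ1]
    exact sum_Psi_sq h2 h3 hθ hc hγ ht
  have s2 : ∑ Y : L, Φ2 Y = 0 := by
    have := sum_Psi h2 (inv_ne_zero h27) (2 * 27⁻¹) c t
    rw [← this, hΦ2]
    refine Finset.sum_congr rfl fun Y _ => ?_
    show Psi c t _ = Psi c t _
    congr 1
    field_simp
  rw [s1] at c1
  rw [s2] at c2
  rw [e1, e2, e3]
  linarith

end SC4
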