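import Mathlib
import Pool.Agent.SC4.SumZ

/-!
# The number of solutions of `u v w + c (u + v + w)³ = t`

`L` a finite field with `q` elements which contains square roots of `3` and `-3`, `c` and `27 c + 1`
nonzero cubes, `a = -∑_W η(4 c W³ + (W - 1)²)`.  For `t ≠ 0` the number of solutions is
`3 q #{r : r³ = t} + q² - 3 q + a`.  The number of zeros of the sum of two such forms in six variables
is `q⁵ + q (q - 1) (18 q + a²)`.
-/

set_option autoImplicit false

namespace SC4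

open Finset SCT

variable {L : Type} [Field L] [Fintype L] [DecidableEq L]

/-- the ternary form -/
def f3 (c : L) (p : L × L × L) : L := p.1 * p.2.1 * p.2.2 + c * (p.1 + p.2.1 + p.2.2) ^ 3

/-- the number of solutions -/
def nf (c t : L) : ℤ := ∑ p : L × L × L, if f3 c p = t then (1 : ℤ) else 0

/-- the trace -/
def aa (c : L) : ℤ := -∑ W : L, quadraticChar L (4 * c * W ^ 3 + (W - 1) ^ 2)

/-- the number of `u` with `u (k - u) w = m` -/
lemma sum_u (h2 : (2 : L) ≠ 0) {w : L} (hw : w ≠ 0) (k m : L) :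
    (∑ u : L, if u * (k - u) * w = m then (1 : ℤ) else 0) =
      1 + quadraticChar L (w * (w * k ^ 2 - 4 * m)) := by
  have h4 := four_ne h2
  have h := sum_lin (mul_ne_zero h2 hw) (-(w * k))
    (fun y => if y ^ 2 = w * (w * k ^ 2 - 4 * m) then (1 : ℤ) else 0)
  rw [sum_sq h2] at h
  rw [← h]
  refine Finset.sum_congr rfl fun u _ => ?_
  refine if_congr ?_ rfl rfl
  constructor
  · intro h5
    rw [← h5]
    ring
  · intro h5
    have h6 : (4 * w) * (u * (k - u) * w) = (4 * w) * m := by linear_combination -h5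
    exact mul_left_cancel₀ (mul_ne_zero h4 hw) h6

lemma nf_sum (h2 : (2 : L) ≠ 0) {c γ : L} (hc : γ ^ 3 = c) (hγ : γ ≠ 0) (t : L) :
    nf c t = (Fintype.card L : ℤ) * N3 t + (Fintype.card L : ℤ) * (Fintype.card L - 1) +
      ∑ s : L, ∑ w : L, quadraticChar L (w * (w * (s - w) ^ 2 + 4 * c * s ^ 3 - 4 * t)) := by
  have e1 : nf c t = ∑ s : L, ∑ w : L, ∑ u : L,
      if u * ((s - w) - u) * w = t - c * s ^ 3 then (1 : ℤ) else 0 := by
    unfold nf
    rw [Fintype.sum_prod_type]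
    simp_rw [Fintype.sum_prod_type]
    have e2 : ∀ u : L, (∑ v : L, ∑ w : L, if f3 c (u, v, w) = t then (1 : ℤ) else 0) =
        ∑ s : L, ∑ w : L, if u * ((s - w) - u) * w = t - c * s ^ 3 then (1 : ℤ) else 0 := by
      intro u
      rw [Finset.sum_comm]
      conv_rhs => rw [Finset.sum_comm]
      refine Finset.sum_congr rfl fun w _ => ?_
      have h := sum_lin (one_ne_zero (α := L)) (u + w)
        (fun s => if u * ((s - w) - u) * w = t - c * s ^ 3 then (1 : ℤ) else 0)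
      rw [← h]
      refine Finset.sum_congr rfl fun v _ => ?_
      refine if_congr ?_ rfl rfl
      unfold f3
      constructor
      · intro h
        linear_combination h
      · intro h
        linear_combination h
    rw [Finset.sum_congr rfl fun u _ => e2 u, Finset.sum_comm]
    refine Finset.sum_congr rfl fun s _ => ?_
    rw [Finset.sum_comm]
  have e2 : ∀ s : L, (∑ w : L, ∑ u : L,
      if u * ((s - w) - u) * w = t - c * s ^ 3 then (1 : ℤ) else 0) =
      (if (γ * s) ^ 3 = t then (Fintype.card L : ℤ) else 0) + ((Fintype.card L : ℤ) - 1) +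
        ∑ w : L, quadraticChar L (w * (w * (s - w) ^ 2 + 4 * c * s ^ 3 - 4 * t)) := by
    intro s
    have g1 := sum_un (fun w : L => ∑ u : L,
      if u * ((s - w) - u) * w = t - c * s ^ 3 then (1 : ℤ) else 0)
    have g2 := sum_un (fun w : L =>
      quadraticChar L (w * (w * (s - w) ^ 2 + 4 * c * s ^ 3 - 4 * t)))
    rw [g1, g2]
    have g3 : (∑ u : L, if u * ((s - 0) - u) * 0 = t - c * s ^ 3 then (1 : ℤ) else 0) =
        if (γ * s) ^ 3 = t then (Fintype.card L : ℤ) else 0 := by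
      have : ∀ u : L, (if u * ((s - 0) - u) * 0 = t - c * s ^ 3 then (1 : ℤ) else 0) =
          if (γ * s) ^ 3 = t then 1 else 0 := by
        intro u
        refine if_congr ?_ rfl rfl
        rw [mul_zero, mul_pow, hc]
        constructor
        · intro h
          linear_combination h
        · intro h
          linear_combination h
      rw [Finset.sum_congr rfl fun u _ => this u, Finset.sum_const, Finset.card_univ, nsmul_eq_mul]
      split_ifs <;> ring
    have g4 : ∀ w : Lˣ, (∑ u : L, if u * ((s - w) - u) * w = t - c * s ^ 3 then (1 : ℤ) else 0) =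
        1 + quadraticChar L (w * (w * (s - w) ^ 2 + 4 * c * s ^ 3 - 4 * t)) := by
      intro w
      rw [sum_u h2 w.ne_zero]
      congr 2
      ring
    have g5 : (∑ _w : Lˣ, (1 : ℤ)) = (Fintype.card L : ℤ) - 1 := by
      rw [Finset.sum_const, Finset.card_univ, nsmul_eq_mul, mul_one, Fintype.card_units,
        Nat.cast_sub Fintype.card_pos, Nat.cast_one]
    rw [g3, Finset.sum_congr rfl fun w _ => g4 w, Finset.sum_add_distrib, g5, zero_mul, eta_zero]
    ring
  rw [e1, Finset.sum_congr rfl fun s _ => e2 s, Finset.sum_add_distrib, Finset.sum_add_distrib,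
    sum_mul_left hγ (fun r : L => if r ^ 3 = t then (Fintype.card L : ℤ) else 0),
    Finset.sum_const, Finset.card_univ, nsmul_eq_mul]
  congr 2
  unfold N3
  rw [Finset.mul_sum]
  refine Finset.sum_congr rfl fun r _ => ?_
  split_ifs <;> ring

lemma sum_s0 (t c : L) :
    ∑ w : L, quadraticChar L (w * (w * (0 - w) ^ 2 + 4 * c * 0 ^ 3 - 4 * t)) =
      ∑ ν : L, quadraticChar L (1 - 4 * t * ν ^ 3) - 1 := by
  rw [sum_un, sum_un (fun ν : L => quadraticChar L (1 - 4 * t * ν ^ 3)), zero_mul, eta_zero,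
    zero_pow three_ne_zero, mul_zero, mul_zero, sub_zero, map_one, zero_add, add_sub_cancel_left]
  refine Fintype.sum_equiv (Equiv.inv Lˣ) _ _ fun w => ?_
  have hw : (w : L) ≠ 0 := w.ne_zero
  rw [Equiv.inv_apply, Units.val_inv_eq_inv_val,
    ← eta_sq (pow_ne_zero 2 hw) (b := 1 - 4 * t * (w : L)⁻¹ ^ 3)]
  congr 1
  field_simp
  ring

lemma sum_T (h2 : (2 : L) ≠ 0) (c t : L) :
    ∑ s : L, ∑ w : L, quadraticChar L (w * (w * (s - w) ^ 2 + 4 * c * s ^ 3 - 4 * t)) =
      ∑ ν : L, quadraticChar L (1 - 4 * t * ν ^ 3) +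
        ∑ x : L, quadraticChar L x * Psi c t (x * (1 - x) ^ 2) + aa c := by
  have e1 := sum_un (fun s : L =>
    ∑ w : L, quadraticChar L (w * (w * (s - w) ^ 2 + 4 * c * s ^ 3 - 4 * t)))
  have e2 : ∑ s : Lˣ, ∑ w : L,
      quadraticChar L (w * (w * ((s : L) - w) ^ 2 + 4 * c * (s : L) ^ 3 - 4 * t)) =
      ∑ σ : Lˣ, ∑ x : L, quadraticChar L (x * (x * (1 - x) ^ 2 + 4 * c - 4 * t * (σ : L) ^ 3)) := by
    refine Fintype.sum_equiv (Equiv.inv Lˣ) _ _ fun s => ?_
    have hs : (s : L) ≠ 0 := s.ne_zero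
    rw [Equiv.inv_apply, Units.val_inv_eq_inv_val, ← sum_mul_left hs (fun w : L =>
      quadraticChar L (w * (w * ((s : L) - w) ^ 2 + 4 * c * (s : L) ^ 3 - 4 * t)))]
    refine Finset.sum_congr rfl fun x _ => ?_
    rw [← eta_sq (pow_ne_zero 2 hs)
      (b := x * (x * (1 - x) ^ 2 + 4 * c - 4 * t * (s : L)⁻¹ ^ 3))]
    show quadraticChar L _ = quadraticChar L _
    congr 1
    field_simp
  have e3 := sum_un (fun σ : L =>
    ∑ x : L, quadraticChar L (x * (x * (1 - x) ^ 2 + 4 * c - 4 * t * σ ^ 3)))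
  have e4 : ∑ x : L, quadraticChar L x * Psi c t (x * (1 - x) ^ 2) =
      ∑ σ : L, ∑ x : L, quadraticChar L (x * (x * (1 - x) ^ 2 + 4 * c - 4 * t * σ ^ 3)) := by
    rw [Finset.sum_comm]
    refine Finset.sum_congr rfl fun x _ => ?_
    unfold Psi
    rw [Finset.mul_sum]
    refine Finset.sum_congr rfl fun σ _ => ?_
    rw [← map_mul]
  have e5 : ∑ x : L, quadraticChar L (x * (x * (1 - x) ^ 2 + 4 * c - 4 * t * 0 ^ 3)) =
      -aa c - 1 := by
    unfold aa
    rw [sum_un, sum_un (fun W : L => quadraticChar L (4 * c * W ^ 3 + (W - 1) ^ 2)), zero_mul,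
      eta_zero, zero_add, neg_neg]
    have e6 : (4 : L) * c * 0 ^ 3 + (0 - 1) ^ 2 = 1 := by ring
    rw [e6, map_one, add_sub_cancel_left]
    refine Fintype.sum_equiv (Equiv.inv Lˣ) _ _ fun x => ?_
    have hx : (x : L) ≠ 0 := x.ne_zero
    rw [Equiv.inv_apply, Units.val_inv_eq_inv_val,
      ← eta_sq (pow_ne_zero 2 hx) (b := 4 * c * (x : L)⁻¹ ^ 3 + ((x : L)⁻¹ - 1) ^ 2)]
    congr 1
    field_simp
    ring
  rw [e1, sum_s0, e2]
  rw [e5, ← e4] at e3
  linarith

theorem nf_eq (h2 : (2 : L) ≠ 0) (h3 : (3 : L) ≠ 0) {ι θ c t γ δ : L} (hι : ι ^ 2 = -3)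
    (hθ : θ ^ 2 = 3) (hc : γ ^ 3 = c) (hγ : γ ≠ 0) (hδ : δ ^ 3 = 27 * c + 1) (hδ0 : δ ≠ 0)
    (ht : t ≠ 0) :
    nf c t = 3 * (Fintype.card L : ℤ) * N3 t +
      ((Fintype.card L : ℤ) ^ 2 - 3 * Fintype.card L + aa c) := by
  rw [nf_sum h2 hc hγ t, sum_T h2, sum_Z h2 h3 hι hθ hc hγ hδ hδ0 ht]
  ring

lemma sum_nf (c : L) : ∑ t : L, nf c t = (Fintype.card L : ℤ) ^ 3 := by
  unfold nf
  rw [Finset.sum_comm]
  have : ∀ p : L × L × L, (∑ t : L, if f3 c p = t then (1 : ℤ) else 0) = 1 := by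
    intro p
    rw [Finset.sum_ite_eq, if_pos (Finset.mem_univ _)]
  rw [Finset.sum_congr rfl fun p _ => this p, Finset.sum_const, Finset.card_univ, nsmul_eq_mul,
    Fintype.card_prod, Fintype.card_prod]
  push_cast
  ring

/-- the number of zeros of the sum of the two forms -/
theorem sum_nf_nf (h2 : (2 : L) ≠ 0) (h3 : (3 : L) ≠ 0) {ι θ c γ δ : L} (hι : ι ^ 2 = -3)
    (hθ : θ ^ 2 = 3) (hc : γ ^ 3 = c) (hγ : γ ≠ 0) (hδ : δ ^ 3 = 27 * c + 1) (hδ0 : δ ≠ 0) :
    ∑ t : L, nf c t * nf c (-t) = (Fintype.card L : ℤ) ^ 5 +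
      (Fintype.card L : ℤ) * (Fintype.card L - 1) * (18 * Fintype.card L + aa c ^ 2) := by
  obtain ⟨N, hN⟩ := exists_N h2 h3 hι
  have g5 : (∑ _w : Lˣ, (1 : ℤ)) = (Fintype.card L : ℤ) - 1 := by
    rw [Finset.sum_const, Finset.card_univ, nsmul_eq_mul, mul_one, Fintype.card_units,
      Nat.cast_sub Fintype.card_pos, Nat.cast_one]
  have hN3 : ∑ t : Lˣ, N3 (t : L) = (Fintype.card L : ℤ) - 1 := by
    have h := sum_un (fun t : L => N3 t)
    rw [sum_N3, N3_zero] at h
    linarith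
  obtain ⟨q, hq⟩ : ∃ q : ℤ, q = Fintype.card L := ⟨_, rfl⟩
  obtain ⟨B, hB⟩ : ∃ B : ℤ, B = q ^ 2 - 3 * q + aa c := ⟨_, rfl⟩
  have hval : ∀ t : Lˣ, nf c (t : L) = 3 * q * N3 (t : L) + B := by
    intro t
    rw [nf_eq h2 h3 hι hθ hc hγ hδ hδ0 t.ne_zero, hB, hq]
  have hval' : ∀ t : Lˣ, nf c (-(t : L)) = 3 * q * N3 (t : L) + B := by
    intro t
    rw [nf_eq h2 h3 hι hθ hc hγ hδ hδ0 (neg_ne_zero.2 t.ne_zero), N3_neg, hB, hq]
  have h0 : nf c 0 = q ^ 3 - (3 * q + B) * (q - 1) := by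
    have h := sum_un (fun t : L => nf c t)
    rw [sum_nf, Finset.sum_congr rfl fun t _ => hval t, Finset.sum_add_distrib, ← Finset.mul_sum,
      hN3] at h
    have h5 : ∑ _t : Lˣ, B = (q - 1) * B := by
      have : ∑ _t : Lˣ, B = ∑ _t : Lˣ, (1 : ℤ) * B := by simp only [one_mul]
      rw [this, ← Finset.sum_mul, g5, hq]
    rw [h5, ← hq] at h
    linarith
  rw [sum_un (fun t : L => nf c t * nf c (-t))]
  have hprod : ∀ t : Lˣ, nf c (t : L) * nf c (-(t : L)) =
      (27 * q ^ 2 + 6 * q * B) * N3 (t : L) + B ^ 2 * 1 := by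
    intro t
    rw [hval, hval']
    have := N3_sq hN t
    linear_combination 9 * q ^ 2 * this
  rw [Finset.sum_congr rfl fun t _ => hprod t, Finset.sum_add_distrib, ← Finset.mul_sum,
    ← Finset.mul_sum, hN3, g5, neg_zero, h0, ← hq, hB]
  ring

end SC4
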