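import Mathlib
import Pool.Agent.SC4.CountF
import Pool.Agent.SHC.LoopCount

/-!
# The cubic form in six variables
-/

set_option autoImplicit false

namespace SC4

open MvPolynomial Finset SCT
open scoped LinearAlgebra.Projectivization

/-- the cubic form, as a function -/
def F6 {L : Type*} [CommRing L] (c : L) (v : Fin 6 → L) : L :=
  v 0 * v 1 * v 2 + c * (v 0 + v 1 + v 2) ^ 3 + (v 3 * v 4 * v 5 + c * (v 3 + v 4 + v 5) ^ 3)

/-- the cubic form -/
noncomputable def P6 {K : Type*} [CommRing K] (c : K) : MvPolynomial (Fin 6) K :=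
  X 0 * X 1 * X 2 + C c * (X 0 + X 1 + X 2) ^ 3 + (X 3 * X 4 * X 5 + C c * (X 3 + X 4 + X 5) ^ 3)

theorem aeval_P6 {K A : Type*} [CommRing K] [CommRing A] [Algebra K A] (c : K) (v : Fin 6 → A) :
    aeval v (P6 c) = F6 (algebraMap K A c) v := by
  simp only [P6, F6, map_add, map_mul, map_pow, aeval_X, aeval_C]

theorem F6_smul {L : Type*} [Field L] (c t : L) (v : Fin 6 → L) :
    F6 c (t • v) = t ^ (2 + 1) * F6 c v := by
  simp only [F6, Pi.smul_apply, smul_eq_mul]
  ring

theorem homog_P6 {K : Type*} [CommRing K] (c : K) : (P6 c).IsHomogeneous 3 := by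
  have hX : ∀ i : Fin 6, (X i : MvPolynomial (Fin 6) K).IsHomogeneous 1 := fun i =>
    isHomogeneous_X K i
  have hC : (C c : MvPolynomial (Fin 6) K).IsHomogeneous 0 := isHomogeneous_C _ c
  unfold P6
  refine ((((hX 0).mul (hX 1)).mul (hX 2)).add ?_).add ((((hX 3).mul (hX 4)).mul (hX 5)).add ?_)
  · simpa using hC.mul ((((hX 0).add (hX 1)).add (hX 2)).pow 3)
  · simpa using hC.mul ((((hX 3).add (hX 4)).add (hX 5)).pow 3)

theorem P6_ne_zero {K : Type*} [Field K] {c : K} (hc : c ≠ 0) : P6 c ≠ 0 := by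
  intro h
  have h1 := congrArg (aeval (![1, 0, 0, 0, 0, 0] : Fin 6 → K)) h
  rw [aeval_P6, map_zero] at h1
  simp [F6] at h1
  exact hc h1

/-- the derivatives of the ternary form -/
theorem core3 {A : Type*} [Field A] {c u v w : A} (h3 : (3 : A) ≠ 0) (hc : c ≠ 0)
    (hc1 : 27 * c + 1 ≠ 0) (hu : v * w + c * (3 * (u + v + w) ^ 2) = 0)
    (hv : u * w + c * (3 * (u + v + w) ^ 2) = 0) (hw : u * v + c * (3 * (u + v + w) ^ 2) = 0) :
    u = 0 ∧ v = 0 ∧ w = 0 := by
  by_cases hs : u + v + w = 0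
  · rw [hs] at hu hv hw
    have hu' : v * w = 0 := by linear_combination hu
    have hv' : u * w = 0 := by linear_combination hv
    have hw' : u * v = 0 := by linear_combination hw
    have hu2 : u ^ 2 = 0 := by linear_combination u * hs - hv' - hw'
    have hv2 : v ^ 2 = 0 := by linear_combination v * hs - hu' - hw'
    have hw2 : w ^ 2 = 0 := by linear_combination w * hs - hu' - hv'
    exact ⟨pow_eq_zero_iff two_ne_zero |>.1 hu2, pow_eq_zero_iff two_ne_zero |>.1 hv2,
      pow_eq_zero_iff two_ne_zero |>.1 hw2⟩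
  · exfalso
    have hne : c * (3 * (u + v + w) ^ 2) ≠ 0 := mul_ne_zero hc (mul_ne_zero h3 (pow_ne_zero 2 hs))
    have hw0 : w ≠ 0 := by
      rintro rfl
      apply hne
      linear_combination hu
    have hu0 : u ≠ 0 := by
      rintro rfl
      apply hne
      linear_combination hv
    have e1 : u = v := by
      have : w * u = w * v := by linear_combination hv - hu
      exact mul_left_cancel₀ hw0 this
    have e2 : w = v := by
      have : u * w = u * v := by linear_combination hv - hw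
      exact mul_left_cancel₀ hu0 this
    subst e1
    subst e2
    have : (27 * c + 1) * w ^ 2 = 0 := by linear_combination hu
    exact (mul_ne_zero hc1 (pow_ne_zero 2 hw0)) this

theorem smooth_P6 {K A : Type*} [Field K] [Field A] [Algebra K A] {c : K}
    (h3 : (3 : K) ≠ 0) (hc : c ≠ 0) (hc1 : 27 * c + 1 ≠ 0) (v : Fin 6 → A)
    (h1 : ∀ j, aeval v (pderiv j (P6 c)) = 0) : v = 0 := by
  have d0 := h1 0
  have d1 := h1 1
  have d2 := h1 2
  have d3 := h1 3
  have d4 := h1 4
  have d5 := h1 5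
  simp only [P6, map_add, Derivation.leibniz, Derivation.leibniz_pow, pderiv_X, pderiv_C,
    smul_eq_mul, map_mul, map_pow, aeval_X, aeval_C, Pi.single_apply, map_zero,
    nsmul_eq_mul, map_natCast] at d0 d1 d2 d3 d4 d5
  simp at d0 d1 d2 d3 d4 d5
  have h3' : (3 : A) ≠ 0 := by
    rw [← map_ofNat (algebraMap K A) 3, Ne, map_eq_zero]; exact h3
  have hc' : algebraMap K A c ≠ 0 := by rw [Ne, map_eq_zero]; exact hc
  have hc1' : 27 * algebraMap K A c + 1 ≠ 0 := by
    rw [← map_ofNat (algebraMap K A) 27, ← map_mul, ← map_one (algebraMap K A), ← map_add, Ne,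
      map_eq_zero]
    exact hc1
  obtain ⟨r0, r1, r2⟩ := core3 (u := v 0) (v := v 1) (w := v 2) h3' hc' hc1'
    (by linear_combination d0) (by linear_combination d1) (by linear_combination d2)
  obtain ⟨r3, r4, r5⟩ := core3 (u := v 3) (v := v 4) (w := v 5) h3' hc' hc1'
    (by linear_combination d3) (by linear_combination d4) (by linear_combination d5)
  funext i
  fin_cases i
  · exact r0
  · exact r1
  · exact r2
  · exact r3
  · exact r4
  · exact r5

/-- the coordinates -/
def coords6 (L : Type) : (Fin 6 → L) ≃ (L × L × L) × (L × L × L) where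
  toFun v := ((v 0, v 1, v 2), (v 3, v 4, v 5))
  invFun p := ![p.1.1, p.1.2.1, p.1.2.2, p.2.1, p.2.2.1, p.2.2.2]
  left_inv v := by
    funext i
    fin_cases i <;> rfl
  right_inv p := rfl

theorem card_F6 {L : Type} [Field L] [Fintype L] [DecidableEq L] (c : L) :
    (Nat.card {v : Fin 6 → L // F6 c v = 0} : ℤ) = ∑ t : L, nf c t * nf c (-t) := by
  have h1 : Nat.card {v : Fin 6 → L // F6 c v = 0} =
      Nat.card {p : (L × L × L) × (L × L × L) // f3 c p.1 + f3 c p.2 = 0} := by
    refine Nat.card_congr ((coords6 L).subtypeEquiv fun v => ?_)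
    rfl
  rw [h1, Nat.card_eq_fintype_card, Fintype.card_subtype, Finset.natCast_card_filter,
    Fintype.sum_prod_type]
  have h2 : ∀ x : L × L × L, (∑ y : L × L × L, if f3 c (x, y).1 + f3 c (x, y).2 = 0 then (1 : ℤ)
      else 0) = ∑ t : L, (if f3 c x = t then (1 : ℤ) else 0) * nf c (-t) := by
    intro x
    rw [Finset.sum_eq_single (f3 c x)]
    · rw [if_pos rfl, one_mul]
      unfold nf
      refine Finset.sum_congr rfl fun y _ => ?_
      refine if_congr ?_ rfl rfl
      rw [eq_neg_iff_add_eq_zero, add_comm]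
    · intro t _ ht
      rw [if_neg (Ne.symm ht), zero_mul]
    · intro h
      exact absurd (Finset.mem_univ _) h
  rw [Finset.sum_congr rfl fun x _ => h2 x, Finset.sum_comm]
  refine Finset.sum_congr rfl fun t _ => ?_
  rw [← Finset.sum_mul]
  rfl

/-- from the number of zeros to the number of projective points -/
theorem points_of_count6 {L : Type} [Field L] [Fintype L] {q s : ℕ} (hq : Fintype.card L = q)
    {F : (Fin 6 → L) → L} {k : ℕ}
    (hF : ∀ (c : L) (x : Fin 6 → L), F (c • x) = c ^ (k + 1) * F x)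
    (hN : (Nat.card {v : Fin 6 → L // F v = 0} : ℤ) = (q : ℤ) ^ 5 + 22 * (q - 1) * (s : ℤ) ^ 4) :
    (Nat.card {P : ℙ L (Fin 6 → L) // F P.rep = 0} : ℤ) =
      ∑ i ∈ range 5, (q : ℤ) ^ i + 22 * (s : ℤ) ^ 4 := by
  classical
  have h1 := SHC.proj_count_gen (n := 5) hF hq
  rw [Nat.card_eq_fintype_card, Fintype.card_subtype] at hN
  have h2 : (1 : ℤ) < q := by
    have := Fintype.one_lt_card (α := L)
    rw [hq] at this
    exact_mod_cast this
  have h3 : ((q : ℤ) - 1) * (Nat.card {P : ℙ L (Fin (5 + 1) → L) // F P.rep = 0} : ℤ) =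
      ((q : ℤ) - 1) * (∑ i ∈ range 5, (q : ℤ) ^ i + 22 * (s : ℤ) ^ 4) := by
    have h4 : ((q : ℤ) - 1) * (Nat.card {P : ℙ L (Fin (5 + 1) → L) // F P.rep = 0} : ℤ) =
      (q : ℤ) ^ 5 + 22 * (q - 1) * (s : ℤ) ^ 4 - 1 := by
      rw [← hN]
      linear_combination -h1
    rw [h4]
    simp only [sum_range_succ, sum_range_zero]
    ring
  exact mul_left_cancel₀ (by omega) h3

end SC4
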