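import Mathlib
import Pool.Agent.SCT.Deu

/-!
# The parameter

`hasse3`: if the coefficient of `X^(p-1)` in `(X³ + (X - 4 c)²)^((p-1)/2)` vanishes, then `p` divides
the trace of Frobenius of `y² = x³ + (x - 4 c)²`.  `rootC`: such a `c` with `c ≠ 0`, `27 c + 1 ≠ 0`
exists over an algebraically closed field of characteristic `p ≡ 1 mod 3`.  (The proofs follow
Pool.Agent.SCT.Hasse and Pool.Agent.SCT.Root; the lemmas on sums are copied from there.)

`p = 6 s + 1`.  The coefficient is `h(c) = ∑_{k ≤ 2s} C(3s, k) C(6s - 2k, 6s - 3k) (-4 c)^k`, a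
polynomial in `c` with constant term `1` and degree `2 s`.  For `27 c + 1 = 0` it is not zero:
`X³ + (X - 4 c)² = (X - α)² (X - β)` with `α = -4/9`, `β = -1/9`, and
`(X - α)^(p-1) = ∑_i α^(p-1-i) X^i`, so that the coefficient is `(α - β)^((p-1)/2)`.
-/

set_option autoImplicit false

set_option linter.unusedSectionVars false

namespace SC4

open Finset Polynomial Pool.Agent.Hhelper85

section hasse

variable {F : Type} [Field F] [Fintype F] [DecidableEq F] {p : ℕ} [Fact p.Prime] [CharP F p]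

private lemma sum_pow_all (i : ℕ) (hi : i ≠ 0) :
    ∑ x : F, x ^ i = if Fintype.card F - 1 ∣ i then (-1 : F) else 0 := by
  classical
  let φ : Fˣ ↪ F := ⟨fun x ↦ x, Units.val_injective⟩
  have : univ.map φ = univ \ {0} := by
    ext x
    simpa only [mem_map, mem_univ, Function.Embedding.coeFn_mk, true_and, mem_sdiff,
      mem_singleton, φ] using! isUnit_iff_ne_zero
  calc
    ∑ x : F, x ^ i = ∑ x ∈ univ \ {(0 : F)}, x ^ i := by
      rw [← sum_sdiff ({0} : Finset F).subset_univ, sum_singleton, zero_pow hi, add_zero]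
    _ = ∑ x : Fˣ, (x ^ i : F) := by simp [φ, ← this, univ.sum_map φ]
    _ = _ := FiniteField.sum_pow_units F i

/-- only the coefficient of `X^(q-1)` contributes -/
private lemma sum_eval (P : F[X]) (hP : P.natDegree < 2 * (Fintype.card F - 1)) :
    ∑ x : F, P.eval x = -P.coeff (Fintype.card F - 1) := by
  have hq : 0 < Fintype.card F - 1 := by
    have := Fintype.one_lt_card (α := F)
    omega
  set Q := Fintype.card F - 1 with hQ
  have e1 : ∀ x : F, P.eval x = ∑ i ∈ range (2 * Q), P.coeff i * x ^ i := fun x =>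
    eval_eq_sum_range' hP x
  rw [Finset.sum_congr rfl fun x _ => e1 x, Finset.sum_comm]
  have e2 : ∀ i ∈ range (2 * Q), (∑ x : F, P.coeff i * x ^ i) =
      if i = Q then -P.coeff Q else 0 := by
    intro i hi
    rw [← Finset.mul_sum]
    by_cases h0 : i = 0
    · subst h0
      rw [if_neg (by omega)]
      simp
    · rw [sum_pow_all i h0, ← hQ]
      by_cases hd : Q ∣ i
      · obtain ⟨j, rfl⟩ := hd
        have hj1 : j ≠ 0 := by
          rintro rfl
          exact h0 (mul_zero Q)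
        have hj2 : j < 2 := by
          by_contra hcon
          rw [mem_range] at hi
          have := Nat.mul_le_mul_left Q (show 2 ≤ j by omega)
          omega
        have hj : j = 1 := by omega
        subst hj
        rw [if_pos (dvd_mul_right _ _), if_pos (mul_one Q), mul_one]
        ring
      · rw [if_neg hd, if_neg, mul_zero]
        rintro rfl
        exact hd dvd_rfl
  rw [Finset.sum_congr rfl e2, Finset.sum_ite_eq' (range (2 * Q)) Q, if_pos]
  rw [mem_range]
  omega

/-- coefficients of `A * h ^ p` -/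
private lemma coeff_mul_pow_p (A h : F[X]) (k : ℕ)
    (hA : ∀ i ≤ k, p ∣ k - i → A.coeff i = 0) : (A * h ^ p).coeff k = 0 := by
  rw [coeff_mul]
  refine Finset.sum_eq_zero ?_
  rintro ⟨i, j⟩ hij
  rw [HasAntidiagonal.mem_antidiagonal] at hij
  by_cases hj : p ∣ j
  · have hi : i ≤ k := by simp only at hij; omega
    have hk : k - i = j := by simp only at hij; omega
    rw [hA i hi (by rw [hk]; exact hj), zero_mul]
  · have : (h ^ p).coeff j = 0 := by
      rw [← map_frobenius_expand p h, coeff_map, coeff_expand (Fact.out (p := p.Prime)).pos, if_neg hj,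
        map_zero]
    rw [this, mul_zero]

private lemma card_split (hp : p ≠ 2) : ∃ M' : ℕ, ∃ Q : ℕ, Fintype.card F = p * Q ∧
    0 < Q ∧ Fintype.card F / 2 = (p - 1) / 2 + p * M' ∧
    Fintype.card F - 1 = 2 * (Fintype.card F / 2) := by
  obtain ⟨n, hpp, hn⟩ := FiniteField.card F p
  have hodd : Odd p := hpp.odd_of_ne_two hp
  obtain ⟨m, hm⟩ := hodd
  have h1 : Odd (p ^ ((n : ℕ) - 1)) := Odd.pow ⟨m, hm⟩
  obtain ⟨M', hM'⟩ := h1
  have h2 : Fintype.card F = p * p ^ ((n : ℕ) - 1) := by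
    rw [hn, ← pow_succ']
    congr 1
    have := n.pos
    omega
  refine ⟨M', p ^ ((n : ℕ) - 1), h2, pow_pos hpp.pos _, ?_, ?_⟩
  · rw [h2, hM']
    have e : p * (2 * M' + 1) = 2 * (m + p * M') + 1 := by rw [hm]; ring
    rw [e]
    have e2 : (p - 1) / 2 = m := by omega
    rw [e2]
    omega
  · rw [h2, hM']
    have e : p * (2 * M' + 1) = 2 * (m + p * M') + 1 := by rw [hm]; ring
    rw [e]
    omega

theorem ne_of_char (hp : p % 3 = 1) (hp2 : p ≠ 2) : (2 : F) ≠ 0 ∧ (3 : F) ≠ 0 := by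
  have hpp : p.Prime := Fact.out
  constructor
  · intro h
    have h1 : ((2 : ℕ) : F) = 0 := by exact_mod_cast h
    rw [CharP.cast_eq_zero_iff F p] at h1
    exact hp2 ((Nat.prime_dvd_prime_iff_eq hpp Nat.prime_two).1 h1)
  · intro h
    have h1 : ((3 : ℕ) : F) = 0 := by exact_mod_cast h
    rw [CharP.cast_eq_zero_iff F p] at h1
    have := (Nat.prime_dvd_prime_iff_eq hpp Nat.prime_three).1 h1
    omega

/-- the cubic polynomial -/
noncomputable def gp {A : Type*} [CommRing A] (c : A) : A[X] := X ^ 3 + (X - C (4 * c)) ^ 2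

theorem hasse3 (hp : p ≠ 2) {c : F}
    (h : ((gp c) ^ ((p - 1) / 2)).coeff (p - 1) = 0) :
    (p : ℤ) ∣ ∑ t : F, quadraticChar F (t ^ 3 + (t - 4 * c) ^ 2) := by
  have hpp : p.Prime := Fact.out
  obtain ⟨M', Q, hQ, hQ0, hM, hq⟩ := card_split (F := F) hp
  have hp2 : 2 ∣ p - 1 := by
    obtain ⟨m, hm⟩ := hpp.odd_of_ne_two hp
    exact ⟨m, by omega⟩
  have hdvd : ∀ z : ℤ, (p : ℤ) ∣ z ↔ ((z : ℤ) : F) = 0 := fun z =>
    (CharP.intCast_eq_zero_iff F p z).symm
  rw [hdvd]
  push_cast
  have hr : ringChar F ≠ 2 := by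
    have := ringChar.eq F p
    rw [this]
    exact hp
  have hgd : (gp c).natDegree ≤ 3 := by
    unfold gp
    compute_degree
  have e1 : ∀ t : F, ((quadraticChar F (t ^ 3 + (t - 4 * c) ^ 2) : ℤ) : F) =
      ((gp c) ^ (Fintype.card F / 2)).eval t := by
    intro t
    rw [quadraticChar_eq_pow_of_char_ne_two' hr, eval_pow, gp]
    simp
  rw [Finset.sum_congr rfl fun t _ => e1 t, sum_eval]
  · rw [neg_eq_zero]
    have e : (gp c) ^ (Fintype.card F / 2) = (gp c) ^ ((p - 1) / 2) * ((gp c) ^ M') ^ p := by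
      rw [← pow_mul, ← pow_add]
      congr 1
      rw [hM]
      ring
    rw [e]
    refine coeff_mul_pow_p _ _ _ fun i hi hd => ?_
    by_cases h1 : 3 * ((p - 1) / 2) < i
    · refine coeff_eq_zero_of_natDegree_lt ?_
      have h2 : ((gp c) ^ ((p - 1) / 2)).natDegree ≤ (p - 1) / 2 * 3 :=
        natDegree_pow_le_of_le _ hgd
      omega
    · have h3 : i = p - 1 := by
        have h4 : p ∣ i + 1 := by
          have h5 : p ∣ Fintype.card F := ⟨Q, hQ⟩
          have h6 : Fintype.card F - (Fintype.card F - 1 - i) = i + 1 := by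
            have : 0 < Fintype.card F := Fintype.card_pos
            omega
          rw [← h6]
          exact Nat.dvd_sub h5 hd
        obtain ⟨r, hr'⟩ := h4
        have hp3 := hpp.two_le
        have hr1 : r = 1 := by
          rcases Nat.lt_or_ge r 1 with h7 | h7
          · have : r = 0 := by omega
            subst this
            omega
          · rcases Nat.lt_or_ge r 2 with h8 | h8
            · omega
            · have := Nat.mul_le_mul_left p h8
              omega
        subst hr1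
        omega
      rw [h3, h]
  · have h2 : ((gp c) ^ (Fintype.card F / 2)).natDegree ≤ Fintype.card F / 2 * 3 :=
      natDegree_pow_le_of_le _ hgd
    have h3 : 0 < Fintype.card F / 2 := by
      have := Fintype.one_lt_card (α := F)
      omega
    omega

theorem dvd_tr (hp : p ≠ 2) {c : F} (h : ((gp c) ^ ((p - 1) / 2)).coeff (p - 1) = 0) :
    (p : ℤ) ∣ tr F 1 (-(8 * c)) (16 * c ^ 2) := by
  have h1 := hasse3 hp h
  unfold tr
  rw [dvd_neg]
  have : ∑ x : F, quadraticChar F (x ^ 3 + 1 * x ^ 2 + -(8 * c) * x + 16 * c ^ 2) =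
      ∑ t : F, quadraticChar F (t ^ 3 + (t - 4 * c) ^ 2) := by
    refine Finset.sum_congr rfl fun x _ => ?_
    congr 1
    ring
  rw [this]
  exact h1

theorem dsc_ne {c : F} (h2 : (2 : F) ≠ 0) (hc : c ≠ 0) (hc1 : 27 * c + 1 ≠ 0) :
    dsc 1 (-(8 * c)) (16 * c ^ 2) ≠ 0 := by
  have e : dsc 1 (-(8 * c)) (16 * c ^ 2) = -(2 ^ 12) * (c ^ 3 * (27 * c + 1)) := by
    unfold dsc
    ring
  rw [e]
  exact mul_ne_zero (neg_ne_zero.2 (pow_ne_zero _ h2)) (mul_ne_zero (pow_ne_zero _ hc) hc1)

end hasse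

section root

variable {A : Type} [Field A] [IsAlgClosed A] {p : ℕ} [Fact p.Prime] [CharP A p]

private theorem choose_ne {n k : ℕ} (hn : n < p) (hk : k ≤ n) : ((n.choose k : ℕ) : A) ≠ 0 := by
  have hp : p.Prime := Fact.out
  rw [Ne, CharP.cast_eq_zero_iff A p]
  intro h
  have h1 : p ∣ n.choose k * k.factorial * (n - k).factorial :=
    dvd_mul_of_dvd_left (dvd_mul_of_dvd_left h _) _
  rw [Nat.choose_mul_factorial_mul_factorial hk] at h1
  have := (Nat.Prime.dvd_factorial hp).mp h1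
  omega

private theorem p_eq (hp : p % 3 = 1) (hp2 : p ≠ 2) : ∃ s : ℕ, 0 < s ∧ p = 6 * s + 1 := by
  have hpp : p.Prime := Fact.out
  obtain ⟨m, hm⟩ := hpp.odd_of_ne_two hp2
  have := hpp.two_le
  exact ⟨p / 6, by omega, by omega⟩

private theorem coeffC (s : ℕ) (c : A) :
    ((gp c) ^ (3 * s)).coeff (6 * s) = ∑ k ∈ Finset.range (2 * s + 1),
      (((3 * s).choose k : ℕ) : A) * (((6 * s - 2 * k).choose (6 * s - 3 * k) : ℕ) : A) *
        (-4) ^ k * c ^ k := by
  have e : (gp c) ^ (3 * s) = ∑ k ∈ Finset.range (3 * s + 1),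
      X ^ (3 * k) * (C (((3 * s).choose k : ℕ) : A) * (X + C (-(4 * c))) ^ (6 * s - 2 * k)) := by
    unfold gp
    rw [add_pow]
    refine Finset.sum_congr rfl fun k hk => ?_
    rw [Finset.mem_range] at hk
    have e1 : 6 * s - 2 * k = 2 * (3 * s - k) := by omega
    rw [e1, pow_mul (X + C (-(4 * c))) 2, map_natCast, ← pow_mul, C_neg, ← sub_eq_add_neg]
    ring
  rw [e, finsetSum_coeff]
  have h1 : Finset.range (2 * s + 1) ⊆ Finset.range (3 * s + 1) := by
    intro k hk
    rw [Finset.mem_range] at hk ⊢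
    omega
  rw [← Finset.sum_subset h1]
  · refine Finset.sum_congr rfl fun k hk => ?_
    rw [Finset.mem_range] at hk
    rw [coeff_X_pow_mul', if_pos (by omega), coeff_C_mul, coeff_X_add_C_pow]
    have e1 : 6 * s - 2 * k - (6 * s - 3 * k) = k := by omega
    rw [e1]
    have e2 : (-(4 * c)) ^ k = (-4) ^ k * c ^ k := by rw [← mul_pow]; congr 1; ring
    rw [e2]
    ring
  · intro k _ hk
    rw [Finset.mem_range, not_lt] at hk
    rw [coeff_X_pow_mul', if_neg (by omega)]

private theorem sub_pow_p (a : A) :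
    (X - C a : A[X]) ^ (p - 1) = ∑ i ∈ Finset.range p, X ^ i * C a ^ (p - 1 - i) := by
  have hpp : p.Prime := Fact.out
  have h1 : (X - C a : A[X]) ≠ 0 := X_sub_C_ne_zero a
  apply mul_right_cancel₀ h1
  rw [← pow_succ, Nat.sub_add_cancel hpp.one_lt.le, sub_pow_char,
    Commute.geom_sum₂_mul (Commute.all _ _)]

private theorem coeffC_bad (hp : p % 3 = 1) (hp2 : p ≠ 2) {c : A} (hc : 27 * c + 1 = 0) :
    ((gp c) ^ ((p - 1) / 2)).coeff (p - 1) ≠ 0 := by
  have hpp : p.Prime := Fact.out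
  obtain ⟨s, hs0, hs⟩ := p_eq hp hp2
  have h3 : (3 : A) ≠ 0 := by
    intro h
    have h4 : ((3 : ℕ) : A) = 0 := by exact_mod_cast h
    rw [CharP.cast_eq_zero_iff A p] at h4
    have := (Nat.prime_dvd_prime_iff_eq Fact.out Nat.prime_three).mp h4
    omega
  -- `α = 12 c`, `β = 3 c`
  have hfac : gp c = (X - C (12 * c)) ^ 2 * (X - C (3 * c)) := by
    have e1 : (C c : A[X]) * 27 + 1 = 0 := by
      have := congrArg (C : A → A[X]) hc
      simp only [map_add, map_mul, map_one, map_zero, map_ofNat] at this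
      linear_combination this
    unfold gp
    simp only [C_mul, map_ofNat]
    linear_combination (X ^ 2 - 8 * C c * X + 16 * C c ^ 2) * e1
  have e : (gp c) ^ ((p - 1) / 2) =
      (X - C (3 * c)) ^ ((p - 1) / 2) * ∑ i ∈ Finset.range p, X ^ i * C (12 * c) ^ (p - 1 - i) := by
    rw [← sub_pow_p (A := A) (p := p), hfac, mul_pow, ← pow_mul]
    have e1 : 2 * ((p - 1) / 2) = p - 1 := by omega
    rw [e1]
    ring
  rw [e, coeff_mul, Finset.Nat.sum_antidiagonal_eq_sum_range_succ_mk]
  have h1 : ∀ k ∈ Finset.range (p - 1).succ, ((X - C (3 * c) : A[X]) ^ ((p - 1) / 2)).coeff k *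
      (∑ i ∈ Finset.range p, (X : A[X]) ^ i * C (12 * c) ^ (p - 1 - i)).coeff (p - 1 - k) =
      ((X - C (3 * c) : A[X]) ^ ((p - 1) / 2)).coeff k * (12 * c) ^ k := by
    intro k hk
    rw [Finset.mem_range] at hk
    congr 1
    rw [finsetSum_coeff]
    have e3 : ∀ i ∈ Finset.range p, ((X : A[X]) ^ i * C (12 * c) ^ (p - 1 - i)).coeff (p - 1 - k) =
        if p - 1 - k = i then (12 * c) ^ (p - 1 - i) else 0 := by
      intro i _
      rw [← C_pow, coeff_mul_C, coeff_X_pow]
      split_ifs <;> simp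
    rw [Finset.sum_congr rfl e3, Finset.sum_ite_eq, if_pos (by rw [Finset.mem_range]; omega)]
    congr 1
    omega
  have hd : (X - C (3 * c) : A[X]).natDegree ≤ 1 := by compute_degree
  have hd2 := natDegree_pow_le_of_le ((p - 1) / 2) hd
  rw [Finset.sum_congr rfl h1, ← eval_eq_sum_range' (by omega) (12 * c : A), eval_pow]
  apply pow_ne_zero
  rw [eval_sub, eval_X, eval_C]
  intro h
  have h5 : c = 0 := by
    have h6 : (3 * 3 : A) * c = 0 := by linear_combination h
    exact (mul_eq_zero.1 h6).resolve_left (mul_ne_zero h3 h3)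
  rw [h5] at hc
  simp at hc

theorem rootC (hp : p % 3 = 1) (hp2 : p ≠ 2) : ∃ c : A, c ≠ 0 ∧ 27 * c + 1 ≠ 0 ∧
    ((gp c) ^ ((p - 1) / 2)).coeff (p - 1) = 0 := by
  obtain ⟨s, hs0, hs⟩ := p_eq hp hp2
  have e1 : (p - 1) / 2 = 3 * s := by omega
  have e2 : p - 1 = 6 * s := by omega
  set a : ℕ → A := fun k => (((3 * s).choose k : ℕ) : A) *
    (((6 * s - 2 * k).choose (6 * s - 3 * k) : ℕ) : A) * (-4) ^ k with ha
  set h : A[X] := ∑ k ∈ Finset.range (2 * s + 1), monomial k (a k) with hh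
  have hcoeff : ∀ k, k ≤ 2 * s → h.coeff k = a k := by
    intro k hk
    rw [hh, finsetSum_coeff]
    simp only [coeff_monomial]
    rw [Finset.sum_ite_eq', if_pos (Finset.mem_range.mpr (by omega))]
  have hev : ∀ c : A, h.eval c = ((gp c) ^ ((p - 1) / 2)).coeff (p - 1) := by
    intro c
    rw [e1, e2, coeffC, hh, eval_finsetSum]
    exact Finset.sum_congr rfl fun k _ => eval_monomial
  have h4 : (-4 : A) ≠ 0 := by
    intro h0
    have h5 : ((4 : ℕ) : A) = 0 := by
      push_cast
      linear_combination -h0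
    rw [CharP.cast_eq_zero_iff A p] at h5
    have := Nat.le_of_dvd (by norm_num) h5
    omega
  have hcs : h.coeff (2 * s) ≠ 0 := by
    rw [hcoeff (2 * s) le_rfl, ha]
    simp only
    refine mul_ne_zero (mul_ne_zero (choose_ne (p := p) (by omega) (by omega))
      (choose_ne (p := p) (by omega) (by omega))) (pow_ne_zero _ h4)
  have hdeg : h.degree ≠ 0 := by
    intro h0
    have h1 : h.natDegree = 0 := natDegree_eq_of_degree_eq_some h0
    exact hcs (coeff_eq_zero_of_natDegree_lt (by omega))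
  obtain ⟨c, hc⟩ := IsAlgClosed.exists_root h hdeg
  rw [IsRoot.def] at hc
  refine ⟨c, ?_, ?_, by rw [← hev]; exact hc⟩
  · rintro rfl
    rw [← coeff_zero_eq_eval_zero, hcoeff 0 (by omega), ha] at hc
    simp at hc
  · intro hc1
    rw [hev] at hc
    exact coeffC_bad hp hp2 hc1 hc

end root

/-- the conditions on the parameters -/
structure Good {A : Type} [Field A] (p : ℕ) (c γ δ ι θ : A) : Prop where
  hι : ι ^ 2 = -3
  hθ : θ ^ 2 = 3
  hc : γ ^ 3 = c
  hγ : γ ≠ 0
  hδ : δ ^ 3 = 27 * c + 1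
  hδ0 : δ ≠ 0
  cc : ((gp c) ^ ((p - 1) / 2)).coeff (p - 1) = 0

theorem exists_good {A : Type} [Field A] [IsAlgClosed A] {p : ℕ} [Fact p.Prime] [CharP A p]
    (hp : p % 3 = 1) (hp2 : p ≠ 2) : ∃ c γ δ ι θ : A, Good p c γ δ ι θ := by
  obtain ⟨c, hc0, hc1, cc⟩ := rootC (A := A) hp hp2
  obtain ⟨γ, hγ⟩ := IsAlgClosed.exists_pow_nat_eq c (n := 3) (by norm_num)
  obtain ⟨δ, hδ⟩ := IsAlgClosed.exists_pow_nat_eq (27 * c + 1) (n := 3) (by norm_num)
  obtain ⟨ι, hι⟩ := IsAlgClosed.exists_pow_nat_eq (-3 : A) (n := 2) (by norm_num)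
  obtain ⟨θ, hθ⟩ := IsAlgClosed.exists_pow_nat_eq (3 : A) (n := 2) (by norm_num)
  refine ⟨c, γ, δ, ι, θ, hι, hθ, hγ, ?_, hδ, ?_, cc⟩
  · rintro rfl
    rw [zero_pow three_ne_zero] at hγ
    exact hc0 hγ.symm
  · rintro rfl
    rw [zero_pow three_ne_zero] at hδ
    exact hc1 hδ.symm

/-- the parameters lie in a finite field -/
theorem exists_finite_good {p : ℕ} [Fact p.Prime] (hp : p % 3 = 1) (hp2 : p ≠ 2) :
    ∃ (K : Type) (_ : Field K) (_ : Fintype K) (_ : CharP K p) (c γ δ ι θ : K),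
      Good p c γ δ ι θ := by
  classical
  obtain ⟨c, γ, δ, ι, θ, h⟩ := exists_good (A := AlgebraicClosure (ZMod p)) hp hp2
  let S : Set (AlgebraicClosure (ZMod p)) := {c, γ, δ, ι, θ}
  have hSfin : S.Finite := by
    simp only [S]
    exact Set.toFinite _
  let K := IntermediateField.adjoin (ZMod p) S
  have hfd : FiniteDimensional (ZMod p) K := by
    have : Finite S := hSfin
    apply IntermediateField.finiteDimensional_adjoin
    intro x _
    exact (Algebra.IsAlgebraic.isAlgebraic (R := ZMod p) x).isIntegral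
  have hfin : Finite K := Module.finite_of_finite (ZMod p)
  have hmem : ∀ x ∈ S, x ∈ K := fun x hx => IntermediateField.subset_adjoin (ZMod p) S hx
  have hcK : CharP K p := charP_of_injective_algebraMap (algebraMap (ZMod p) K).injective p
  let i : K →+* AlgebraicClosure (ZMod p) := algebraMap K (AlgebraicClosure (ZMod p))
  have hi : Function.Injective i := i.injective
  refine ⟨K, inferInstance, Fintype.ofFinite K, hcK, ⟨c, hmem _ (by simp [S])⟩,
    ⟨γ, hmem _ (by simp [S])⟩, ⟨δ, hmem _ (by simp [S])⟩, ⟨ι, hmem _ (by simp [S])⟩,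
    ⟨θ, hmem _ (by simp [S])⟩, ?_⟩
  constructor
  · exact Subtype.ext h.hι
  · exact Subtype.ext h.hθ
  · exact Subtype.ext h.hc
  · exact fun h0 => h.hγ (congrArg Subtype.val h0)
  · exact Subtype.ext h.hδ
  · exact fun h0 => h.hδ0 (congrArg Subtype.val h0)
  · apply hi
    rw [map_zero, ← coeff_map]
    simp only [gp, Polynomial.map_pow, Polynomial.map_add, Polynomial.map_sub, Polynomial.map_X,
      Polynomial.map_C]
    have := h.cc
    unfold gp at this
    exact this

end SC4
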